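import Pool.Agent.Lib_helper32.OR.Graph

/-!
# MP_df1a54_co: few edges of the ring of odd cliques can be deleted
-/

open Finset

set_option autoImplicit false
set_option linter.unusedSectionVars false
set_option linter.unusedVariables false

namespace Pool.Agent.OddRing

open Pool.Agent.RE26

variable {s T r ρ : ℕ}

/-! ### neighbours -/

/-- the neighbours of a vertex of a blob outside of the blob -/
def outs (i : Fin (T + 2)) (c : Option (Fin s × Bool)) : Finset (OV s T r ρ) :=
  match c with
  | none => (univ.filter fun a : Fin r => (a : ℕ) = (i : ℕ) / (2 * s)).image fun a => zv a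
  | some (j, true) => {bv (i + 1) (some (j, false))}
  | some (j, false) => {bv (i - 1) (some (j, true))}

theorem card_outs (i : Fin (T + 2)) (c : Option (Fin s × Bool)) :
    (outs i c : Finset (OV s T r ρ)).card ≤ 1 := by
  rcases c with _ | ⟨j, b⟩
  · refine card_image_le.trans ?_
    rw [card_le_one]
    intro a ha a' ha'
    rw [mem_filter] at ha ha'
    exact Fin.ext (ha.2.trans ha'.2.symm)
  · cases b <;> exact (card_singleton _).le

/-- the neighbours of a vertex of a blob -/
def nb (i : Fin (T + 2)) (c : Option (Fin s × Bool)) : Finset (OV s T r ρ) :=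
  ((univ.erase c).image fun c' => bv i c') ∪ outs i c

theorem card_nb (i : Fin (T + 2)) (c : Option (Fin s × Bool)) :
    (nb i c : Finset (OV s T r ρ)).card ≤ 2 * s + 1 := by
  unfold nb
  refine (card_union_le _ _).trans ?_
  have h1 : ((univ.erase c).image fun c' => (bv i c' : OV s T r ρ)).card ≤ 2 * s := by
    refine card_image_le.trans ?_
    rw [card_erase_of_mem (mem_univ _), card_univ, Fintype.card_option, Fintype.card_prod,
      Fintype.card_fin, Fintype.card_bool]
    omega
  have h2 := card_outs (r := r) (ρ := ρ) i c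
  omega

theorem mem_nb {i : Fin (T + 2)} (hi : i ≠ 0) (c : Option (Fin s × Bool)) (w : OV s T r ρ)
    (h : (oddG s T r ρ).Adj (bv i c) w) : w ∈ nb i c := by
  unfold nb
  rw [mem_union]
  rcases h with h | h
  · cases h with
    | inner _ _ p' h =>
      left
      exact mem_image.2 ⟨p', mem_erase.2 ⟨h.symm, mem_univ _⟩, rfl⟩
    | link _ i' j h =>
      right
      subst h
      exact mem_singleton.2 rfl
    | leaf _ a h =>
      right
      exact mem_image.2 ⟨a, mem_filter.2 ⟨mem_univ _, h⟩, rfl⟩
    | ext _ _ x h => exact absurd h hi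
  · cases h with
    | inner _ p _ h =>
      left
      exact mem_image.2 ⟨p, mem_erase.2 ⟨h, mem_univ _⟩, rfl⟩
    | link i0 _ j h =>
      right
      subst h
      refine mem_singleton.2 ?_
      rw [add_sub_cancel_right]

/-- the neighbours of a collecting vertex -/
def nbz (a : Fin r) : Finset (OV s T r ρ) := ((grp s T a).image fun i => bv i none) ∪ {hv}

theorem card_nbz (hs : 1 ≤ s) (a : Fin r) : (nbz a : Finset (OV s T r ρ)).card ≤ 2 * s + 1 := by
  unfold nbz
  refine (card_union_le _ _).trans ?_
  have h1 : ((grp s T a).image fun i => (bv i none : OV s T r ρ)).card ≤ 2 * s :=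
    card_image_le.trans (card_grp_le hs a)
  rw [card_singleton]
  omega

theorem mem_nbz (a : Fin r) (w : OV s T r ρ) (h : (oddG s T r ρ).Adj (zv a) w) : w ∈ nbz a := by
  unfold nbz
  rw [mem_union]
  rcases h with h | h
  · cases h with
    | spoke _ =>
      right
      exact mem_singleton.2 rfl
  · cases h with
    | leaf i _ h =>
      left
      exact mem_image.2 ⟨i, mem_filter.2 ⟨mem_univ _, h.symm⟩, rfl⟩

/-- the neighbours of an additional vertex -/
def nbe : Finset (OV s T r ρ) := univ.image fun c => bv 0 c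

theorem card_nbe : (nbe : Finset (OV s T r ρ)).card ≤ 2 * s + 1 := by
  refine card_image_le.trans ?_
  rw [card_univ, Fintype.card_option, Fintype.card_prod, Fintype.card_fin, Fintype.card_bool]
  omega

theorem mem_nbe (x : Fin ρ) (w : OV s T r ρ) (h : (oddG s T r ρ).Adj (ev x) w) : w ∈ nbe := by
  rcases h with h | h
  · cases h
  · cases h with
    | ext i p _ h =>
      subst h
      exact mem_image.2 ⟨p, mem_univ _, rfl⟩

/-! ### two gaps of one group -/

/-- the vertex lies in one of the blobs `p + 1, ..., q` -/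
def arcP (p q : Fin (T + 2)) : OV s T r ρ → Prop
  | Sum.inl (i, _) => p < i ∧ i ≤ q
  | _ => False

/-- the link `x` at the positions `p`, `q` -/
def lk (p q : Fin (T + 2)) (x : Fin s × Bool) : Sym2 (OV s T r ρ) :=
  s(bv (if x.2 = true then q else p) (some (x.1, true)),
    bv ((if x.2 = true then q else p) + 1) (some (x.1, false)))

section Del

variable {F : Finset (Sym2 (OV s T r ρ))}

theorem two_links (hs : 1 ≤ s)
    (hK : KConn ((oddG s T r ρ).deleteEdges (F : Set (Sym2 (OV s T r ρ)))) (2 * s))
    {p q : Fin (T + 2)} (hpq : p < q) (a : Fin r) (hap : (a : ℕ) = (p : ℕ) / (2 * s))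
    (haq : (a : ℕ) = (q : ℕ) / (2 * s)) {x y : Fin s × Bool} (hxy : x ≠ y)
    (hx : lk p q x ∈ F) (hy : lk p q y ∈ F) : False := by
  classical
  set S0 : Finset (OV s T r ρ) := (univ.filter fun z : Fin s × Bool => lk p q z ∉ F).image
    (fun z => bv (if z.2 = true then q else p) (some (z.1, true))) with hS0
  set S : Finset (OV s T r ρ) := insert (zv a) S0 with hS
  set X : Finset (OV s T r ρ) := univ.filter fun v => arcP p q v ∧ v ∉ S with hX
  set Y : Finset (OV s T r ρ) := univ.filter fun v => ¬ arcP p q v ∧ v ∉ S with hY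
  have hSp : ∀ j : Fin s, lk p q (j, false) ∉ F → (bv p (some (j, true)) : OV s T r ρ) ∈ S := by
    intro j h
    rw [hS, mem_insert]
    right
    rw [hS0, mem_image]
    exact ⟨(j, false), by simpa using h, by simp⟩
  have hSq : ∀ j : Fin s, lk p q (j, true) ∉ F → (bv q (some (j, true)) : OV s T r ρ) ∈ S := by
    intro j h
    rw [hS, mem_insert]
    right
    rw [hS0, mem_image]
    exact ⟨(j, true), by simpa using h, by simp⟩
  have hSn : ∀ i : Fin (T + 2), (bv i none : OV s T r ρ) ∉ S := by
    intro i h
    rw [hS, mem_insert] at h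
    rcases h with h | h
    · simp at h
    · rw [hS0, mem_image] at h
      obtain ⟨z, -, hz⟩ := h
      simp at hz
  have hza : (zv a : OV s T r ρ) ∈ S := mem_insert_self _ _
  have hcross : ∀ u ∈ X, ∀ v ∈ Y, (oddG s T r ρ).Adj u v → s(u, v) ∈ F := by
    intro u hu v hv h
    rw [hX, mem_filter] at hu
    rw [hY, mem_filter] at hv
    obtain ⟨-, hu1, hu2⟩ := hu
    obtain ⟨-, hv1, hv2⟩ := hv
    rcases h with h | h
    · cases h with
      | inner i c c' h => exact absurd hu1 hv1
      | link i i' j h =>
        have hu3 : p < i ∧ i ≤ q := hu1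
        have hv3 : ¬ (p < i' ∧ i' ≤ q) := hv1
        subst h
        rw [Fin.lt_def, Fin.le_def, Fin.val_add_one] at hv3
        have h5 : i = q := by
          apply Fin.ext
          rw [Fin.lt_def, Fin.le_def] at hu3
          have h6 := q.2
          split_ifs at hv3 with h7
          · have h8 := congrArg Fin.val h7
            rw [Fin.val_last] at h8
            omega
          · omega
        subst h5
        by_contra hcon
        apply hu2
        refine hSq j ?_
        intro h9
        exact hcon h9
      | leaf i a' h =>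
        have hu3 : p < i ∧ i ≤ q := hu1
        exfalso
        apply hv2
        have h5 : a' = a := by
          apply Fin.ext
          rw [h]
          apply le_antisymm
          · rw [haq]
            exact Nat.div_le_div_right (Fin.le_def.1 hu3.2)
          · rw [hap]
            exact Nat.div_le_div_right (Fin.lt_def.1 hu3.1).le
        rw [h5]
        exact hza
      | spoke a' => exact absurd hu1 (fun h => h)
      | ext i c x h =>
        have hu3 : p < i ∧ i ≤ q := hu1
        exfalso
        rw [h] at hu3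
        exact absurd hu3.1 (Fin.not_lt_zero p)
    · cases h with
      | inner i c c' h => exact absurd hu1 hv1
      | link i i' j h =>
        have hu3 : p < i' ∧ i' ≤ q := hu1
        have hv3 : ¬ (p < i ∧ i ≤ q) := hv1
        subst h
        rw [Fin.lt_def, Fin.le_def, Fin.val_add_one] at hu3
        have h5 : i = p := by
          apply Fin.ext
          rw [Fin.lt_def, Fin.le_def] at hv3
          split_ifs at hu3 with h7
          · omega
          · omega
        subst h5
        by_contra hcon
        apply hv2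
        refine hSp j ?_
        intro h9
        apply hcon
        rw [Sym2.eq_swap]
        exact h9
      | leaf i a' h => exact absurd hu1 (fun h => h)
      | spoke a' => exact absurd hu1 (fun h => h)
      | ext i c x h => exact absurd hu1 (fun h => h)
  have h1 := sep_of_kconn _ _ hK X Y ⟨bv q none, by
      rw [hX, mem_filter]
      exact ⟨mem_univ _, ⟨hpq, le_refl q⟩, hSn q⟩⟩ ⟨bv p none, by
      rw [hY, mem_filter]
      exact ⟨mem_univ _, fun h => lt_irrefl p h.1, hSn p⟩⟩ (by
      rw [Finset.disjoint_left]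
      intro c ha hb
      rw [hX, mem_filter] at ha
      rw [hY, mem_filter] at hb
      exact hb.2.1 ha.2.1) (by
      intro u hu v hv huv
      rw [SimpleGraph.deleteEdges_adj] at huv
      exact huv.2 (mem_coe.2 (hcross u hu v hv huv.1)))
  have h2 : (X ∪ Y)ᶜ ⊆ S := by
    intro z hz
    rw [mem_compl, mem_union, not_or, hX, hY, mem_filter, mem_filter] at hz
    by_contra hzS
    by_cases h3 : arcP p q z
    · exact hz.1 ⟨mem_univ _, h3, hzS⟩
    · exact hz.2 ⟨mem_univ _, h3, hzS⟩
  have h3 : S0.card ≤ (univ \ {x, y} : Finset (Fin s × Bool)).card := by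
    refine card_image_le.trans (card_le_card ?_)
    intro z hz
    rw [mem_filter] at hz
    rw [mem_sdiff, mem_insert, mem_singleton]
    refine ⟨mem_univ _, ?_⟩
    rintro (rfl | rfl)
    · exact hz.2 hx
    · exact hz.2 hy
  rw [Finset.card_univ_sdiff, card_pair hxy, Fintype.card_prod, Fintype.card_fin,
    Fintype.card_bool] at h3
  have h4 := card_le_card h2
  have h5 : S.card ≤ S0.card + 1 := card_insert_le _ _
  have h6 : 2 ≤ s * 2 := by omega
  omega

open Classical in
/-- the links in `F` -/
noncomputable def links (F : Finset (Sym2 (OV s T r ρ))) : Finset (Fin (T + 2) × Fin s) :=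
  univ.filter fun x => s(bv x.1 (some (x.2, true)), bv (x.1 + 1) (some (x.2, false))) ∈ F

open Classical in
theorem card_links (hs : 1 ≤ s) (hT : T + 2 = r * (2 * s))
    (hK : KConn ((oddG s T r ρ).deleteEdges (F : Set (Sym2 (OV s T r ρ)))) (2 * s)) :
    (links F).card ≤ r := by
  classical
  have h1 : (links F).card ≤ (univ : Finset (Fin r)).card := by
    refine card_le_card_of_injOn (fun x => ⟨(x.1 : ℕ) / (2 * s), group_lt hT x.1⟩)
      (fun _ _ => mem_coe.2 (mem_univ _)) ?_
    rintro ⟨i, j⟩ hi ⟨i', j'⟩ hi' h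
    rw [mem_coe, links, mem_filter] at hi hi'
    replace hi := hi.2
    replace hi' := hi'.2
    dsimp only at hi hi' h
    have hg : (i : ℕ) / (2 * s) = (i' : ℕ) / (2 * s) := congrArg Fin.val h
    by_cases hii : i = i'
    · subst hii
      by_cases hjj : j = j'
      · rw [hjj]
      · exfalso
        have h2 := Nat.div_add_mod (i : ℕ) (2 * s)
        have h3 := Nat.mod_lt (i : ℕ) (show 2 * s > 0 by omega)
        by_cases h4 : (i : ℕ) % (2 * s) = 0
        · -- the next gap
          have h5 : ((i : ℕ) + 1) / (2 * s) = (i : ℕ) / (2 * s) := by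
            rw [Nat.succ_div, if_neg, add_zero]
            intro h6
            rw [Nat.dvd_iff_mod_eq_zero, Nat.add_mod, h4, zero_add, Nat.mod_mod] at h6
            rw [Nat.mod_eq_of_lt (by omega)] at h6
            omega
          have h6 : (i : ℕ) + 1 < T + 2 := by
            have h7 := group_lt hT i
            have h8 : (i : ℕ) = 2 * s * ((i : ℕ) / (2 * s)) := by omega
            have h9 : ((i : ℕ) / (2 * s) + 1) * (2 * s) ≤ r * (2 * s) := Nat.mul_le_mul_right _ h7
            have h10 : ((i : ℕ) / (2 * s) + 1) * (2 * s) = 2 * s * ((i : ℕ) / (2 * s)) + 2 * s := by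
              ring
            rw [← hT, h10] at h9
            omega
          set i2 : Fin (T + 2) := ⟨(i : ℕ) + 1, h6⟩ with hi2
          refine two_links hs hK (p := i) (q := i2) (Fin.lt_def.2 (by rw [hi2]; simp))
            ⟨(i : ℕ) / (2 * s), group_lt hT i⟩ rfl h5.symm (x := (j, false)) (y := (j', false))
            ?_ ?_ ?_
          · intro h7
            exact hjj (by simpa using h7)
          · simpa [lk] using hi
          · simpa [lk] using hi'
        · -- the previous gap
          have h5 : ((i : ℕ) - 1) / (2 * s) = (i : ℕ) / (2 * s) := by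
            have h6 : (i : ℕ) - 1 = 2 * s * ((i : ℕ) / (2 * s)) + ((i : ℕ) % (2 * s) - 1) := by omega
            rw [h6, Nat.mul_add_div (show 2 * s > 0 by omega),
              Nat.div_eq_of_lt (show (i : ℕ) % (2 * s) - 1 < 2 * s by omega), add_zero]
          have h6 : (i : ℕ) ≠ 0 := by
            intro h7
            apply h4
            rw [h7, Nat.zero_mod]
          have h7 := i.2
          set i2 : Fin (T + 2) := ⟨(i : ℕ) - 1, by omega⟩ with hi2
          refine two_links hs hK (p := i2) (q := i) (Fin.lt_def.2 (by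
            rw [hi2]
            show (i : ℕ) - 1 < i
            omega))
            ⟨(i : ℕ) / (2 * s), group_lt hT i⟩ h5.symm rfl (x := (j, true)) (y := (j', true))
            ?_ ?_ ?_
          · intro h7
            exact hjj (by simpa using h7)
          · simpa [lk] using hi
          · simpa [lk] using hi'
    · exfalso
      rcases lt_or_gt_of_ne hii with h2 | h2
      · refine two_links hs hK h2 ⟨(i : ℕ) / (2 * s), group_lt hT i⟩ rfl hg
          (x := (j, false)) (y := (j', true)) ?_ ?_ ?_
        · intro h7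
          simp at h7
        · simpa [lk] using hi
        · simpa [lk] using hi'
      · refine two_links hs hK h2 ⟨(i : ℕ) / (2 * s), group_lt hT i⟩ hg rfl
          (x := (j', false)) (y := (j, true)) ?_ ?_ ?_
        · intro h7
          simp at h7
        · simpa [lk] using hi'
        · simpa [lk] using hi
  rwa [card_univ, Fintype.card_fin] at h1

/-- the edges of `F` inside of a blob -/
noncomputable def inn (F : Finset (Sym2 (OV s T r ρ))) (i : Fin (T + 2)) :
    Finset (Sym2 (OV s T r ρ)) := by
  classical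
  exact F.filter fun e => ∃ c c', c ≠ c' ∧ e = s(bv i c, bv i c')

theorem card_inn (hF : (F : Set (Sym2 (OV s T r ρ))) ⊆ (oddG s T r ρ).edgeSet)
    (hK : KConn ((oddG s T r ρ).deleteEdges (F : Set (Sym2 (OV s T r ρ)))) (2 * s))
    {i : Fin (T + 2)} (hi : i ≠ 0) : (inn F i).card ≤ s := by
  classical
  set B : Finset (OV s T r ρ) := univ.image fun c => bv i c with hB
  have hBc : B.card ≤ 2 * s + 1 := by
    refine card_image_le.trans ?_
    rw [card_univ, Fintype.card_option, Fintype.card_prod, Fintype.card_fin, Fintype.card_bool]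
    omega
  have h1 := Finset.card_mul_le_card_mul (s := inn F i) (t := B)
    (fun (e : Sym2 (OV s T r ρ)) (v : OV s T r ρ) => v ∈ e) (m := 2) (n := 1) (by
      intro e he
      rw [inn, mem_filter] at he
      obtain ⟨-, c, c', hcc, rfl⟩ := he
      have hne : (bv i c : OV s T r ρ) ≠ bv i c' := by
        intro h
        exact hcc (by simpa using h)
      calc 2 = ({bv i c, bv i c'} : Finset (OV s T r ρ)).card := (card_pair hne).symm
        _ ≤ _ := card_le_card (by
          intro z hz
          rw [mem_bipartiteAbove, hB, mem_image]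
          rcases mem_insert.1 hz with rfl | hz
          · exact ⟨⟨c, mem_univ _, rfl⟩, Sym2.mem_mk_left _ _⟩
          · rw [mem_singleton.1 hz]
            exact ⟨⟨c', mem_univ _, rfl⟩, Sym2.mem_mk_right _ _⟩)) (by
      intro v hv
      rw [hB, mem_image] at hv
      obtain ⟨c, -, rfl⟩ := hv
      rw [card_le_one]
      intro e he e' he'
      rw [mem_bipartiteBelow, inn, mem_filter] at he he'
      obtain ⟨⟨he1, -⟩, he2⟩ := he
      obtain ⟨⟨he1', -⟩, he2'⟩ := he'
      obtain ⟨w, rfl⟩ := he2
      obtain ⟨w', rfl⟩ := he2'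
      rw [deg_one (oddG s T r ρ) F (2 * s) hF hK (bv i c) (nb i c) (mem_nb hi c) (card_nb i c)
        he1 he1'])
  omega

theorem card_inn0 (i : Fin (T + 2)) : (inn F i).card ≤ s * (2 * s + 1) := by
  classical
  have h1 : inn F i ⊆ (⊤ : SimpleGraph (Option (Fin s × Bool))).edgeFinset.image
      (Sym2.map fun c => (bv i c : OV s T r ρ)) := by
    intro e he
    rw [inn, mem_filter] at he
    obtain ⟨-, c, c', hcc, rfl⟩ := he
    rw [mem_image]
    refine ⟨s(c, c'), ?_, by rw [Sym2.map_mk]⟩
    rw [SimpleGraph.mem_edgeFinset, SimpleGraph.mem_edgeSet]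
    exact hcc
  have h2 := (card_le_card h1).trans card_image_le
  rw [SimpleGraph.card_edgeFinset_top_eq_card_choose_two, Fintype.card_option, Fintype.card_prod,
    Fintype.card_fin, Fintype.card_bool, Nat.choose_two_right] at h2
  have h3 : (s * 2 + 1) * (s * 2 + 1 - 1) / 2 = s * (2 * s + 1) := by
    have h4 : (s * 2 + 1) * (s * 2 + 1 - 1) = s * (2 * s + 1) * 2 := by
      rw [Nat.add_sub_cancel]
      ring
    rw [h4, Nat.mul_div_cancel _ (by norm_num)]
  omega

open Classical in
theorem card_zs (hs : 1 ≤ s) (hF : (F : Set (Sym2 (OV s T r ρ))) ⊆ (oddG s T r ρ).edgeSet)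
    (hK : KConn ((oddG s T r ρ).deleteEdges (F : Set (Sym2 (OV s T r ρ)))) (2 * s)) (a : Fin r) :
    (F.filter fun e => (zv a : OV s T r ρ) ∈ e).card ≤ 1 := by
  classical
  rw [card_le_one]
  intro e he e' he'
  rw [mem_filter] at he he'
  obtain ⟨he1, he2⟩ := he
  obtain ⟨he1', he2'⟩ := he'
  obtain ⟨w, rfl⟩ := he2
  obtain ⟨w', rfl⟩ := he2'
  rw [deg_one (oddG s T r ρ) F (2 * s) hF hK (zv a) (nbz a) (mem_nbz a) (card_nbz hs a) he1 he1']

open Classical in
theorem card_es (hF : (F : Set (Sym2 (OV s T r ρ))) ⊆ (oddG s T r ρ).edgeSet)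
    (hK : KConn ((oddG s T r ρ).deleteEdges (F : Set (Sym2 (OV s T r ρ)))) (2 * s)) (x : Fin ρ) :
    (F.filter fun e => (ev x : OV s T r ρ) ∈ e).card ≤ 1 := by
  classical
  rw [card_le_one]
  intro e he e' he'
  rw [mem_filter] at he he'
  obtain ⟨he1, he2⟩ := he
  obtain ⟨he1', he2'⟩ := he'
  obtain ⟨w, rfl⟩ := he2
  obtain ⟨w', rfl⟩ := he2'
  rw [deg_one (oddG s T r ρ) F (2 * s) hF hK (ev x) nbe (mem_nbe x) card_nbe he1 he1']

open Classical in
/-- the number of edges which can be deleted -/
theorem odd_bound (hs : 1 ≤ s) (hT : T + 2 = r * (2 * s))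
    (hF : (F : Set (Sym2 (OV s T r ρ))) ⊆ (oddG s T r ρ).edgeSet)
    (hK : KConn ((oddG s T r ρ).deleteEdges (F : Set (Sym2 (OV s T r ρ)))) (2 * s)) :
    F.card ≤ (s * (2 * s + 1) + (T + 1) * s) + r + r + ρ := by
  classical
  set A : Finset (Sym2 (OV s T r ρ)) := univ.biUnion (inn F) with hA
  set R : Finset (Sym2 (OV s T r ρ)) := (links F).image fun x =>
    s(bv x.1 (some (x.2, true)), bv (x.1 + 1) (some (x.2, false))) with hR
  set Z : Finset (Sym2 (OV s T r ρ)) :=
    univ.biUnion fun a : Fin r => F.filter fun e => (zv a : OV s T r ρ) ∈ e with hZ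
  set E : Finset (Sym2 (OV s T r ρ)) :=
    univ.biUnion fun x : Fin ρ => F.filter fun e => (ev x : OV s T r ρ) ∈ e with hE
  have hsub : F ⊆ A ∪ R ∪ Z ∪ E := by
    have key : ∀ u v : OV s T r ρ, Half u v → s(u, v) ∈ F → s(u, v) ∈ A ∪ R ∪ Z ∪ E := by
      intro u v h he
      rw [mem_union, mem_union, mem_union]
      cases h with
      | inner i c c' h =>
        left; left; left
        rw [hA, mem_biUnion]
        refine ⟨i, mem_univ _, ?_⟩
        rw [inn, mem_filter]
        exact ⟨he, c, c', h, rfl⟩
      | link i i' j h =>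
        left; left; right
        subst h
        rw [hR, mem_image]
        refine ⟨(i, j), ?_, rfl⟩
        rw [links, mem_filter]
        exact ⟨mem_univ _, he⟩
      | leaf i a h =>
        left; right
        rw [hZ, mem_biUnion]
        exact ⟨a, mem_univ _, mem_filter.2 ⟨he, Sym2.mem_mk_right _ _⟩⟩
      | spoke a =>
        left; right
        rw [hZ, mem_biUnion]
        exact ⟨a, mem_univ _, mem_filter.2 ⟨he, Sym2.mem_mk_left _ _⟩⟩
      | ext i c x h =>
        right
        rw [hE, mem_biUnion]
        exact ⟨x, mem_univ _, mem_filter.2 ⟨he, Sym2.mem_mk_right _ _⟩⟩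
    intro e he
    have h1 := hF (mem_coe.2 he)
    induction e using Sym2.ind with
    | _ u w =>
      rw [SimpleGraph.mem_edgeSet] at h1
      rcases h1 with h | h
      · exact key u w h he
      · rw [Sym2.eq_swap] at he ⊢
        exact key w u h he
  have h1 := card_le_card hsub
  have h2 := card_union_le (A ∪ R ∪ Z) E
  have h3 := card_union_le (A ∪ R) Z
  have h4 := card_union_le A R
  have hAc : A.card ≤ s * (2 * s + 1) + (T + 1) * s := by
    refine card_biUnion_le.trans ?_
    rw [Fin.sum_univ_succ]
    have h5 : ∑ i : Fin (T + 1), (inn F i.succ).card ≤ ∑ _i : Fin (T + 1), s :=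
      sum_le_sum fun i _ => card_inn hF hK (Fin.succ_ne_zero i)
    rw [sum_const, card_univ, Fintype.card_fin, smul_eq_mul] at h5
    exact Nat.add_le_add (card_inn0 0) h5
  have hRc : R.card ≤ r := card_image_le.trans (card_links hs hT hK)
  have hZc : Z.card ≤ r := by
    refine card_biUnion_le.trans ?_
    calc ∑ a : Fin r, (F.filter fun e => (zv a : OV s T r ρ) ∈ e).card ≤ ∑ _a : Fin r, 1 :=
          sum_le_sum fun a _ => card_zs hs hF hK a
      _ = r := by rw [sum_const, card_univ, Fintype.card_fin, smul_eq_mul, mul_one]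
  have hEc : E.card ≤ ρ := by
    refine card_biUnion_le.trans ?_
    calc ∑ x : Fin ρ, (F.filter fun e => (ev x : OV s T r ρ) ∈ e).card ≤ ∑ _x : Fin ρ, 1 :=
          sum_le_sum fun x _ => card_es hF hK x
      _ = ρ := by rw [sum_const, card_univ, Fintype.card_fin, smul_eq_mul, mul_one]
  omega

end Del

/-- the bound for `f(n, k)`, `k = 2 s + 1`, `n = r (k ^ 2 - k + 1) + 1 + ρ` -/
theorem fnk_odd (s r ρ : ℕ) (hs : 1 ≤ s) (hr : 2 * s + 1 ≤ r) :
    fnk (r * (4 * s ^ 2 + 2 * s + 1) + 1 + ρ) (2 * s + 1) ≤
      r * (2 * s ^ 2 + 2) + 2 * s ^ 2 + ρ := by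
  obtain ⟨T, hT⟩ : ∃ T, T + 2 = r * (2 * s) := by
    have h1 : 2 ≤ r * (2 * s) := by nlinarith
    exact ⟨r * (2 * s) - 2, by omega⟩
  refine fnk_le_of_graph (oddG s T r ρ) _ _ _ ?_ (odd_conn hs hr hT) ?_
  · rw [card_OV, hT]
    ring
  · intro F hF hK
    rw [Nat.add_sub_cancel] at hK
    refine (odd_bound hs hT hF hK).trans ?_
    have h1 : (T + 1) * s + s = r * (2 * s) * s := by
      rw [← hT]; ring
    have h2 : r * (2 * s ^ 2 + 2) = r * (2 * s) * s + r + r := by ring
    have h3 : s * (2 * s + 1) = 2 * s ^ 2 + s := by ring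
    omega

end Pool.Agent.OddRing
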