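import Pool.Agent.Lib_helper32.OR.Del
import Pool.Agent.Rem2.All
import Pool.Agent.Rem2.Second

/-!
# MP_df1a54_co: the order of the second term of `f(n, k)` for every `k`
-/

open Finset

set_option autoImplicit false

namespace Pool.Agent.OddRing

open Pool.Agent.RE26 Pool.Agent.Rem2

/-- the routine upper bound `(n + 1) / 2` -/
theorem fnk_half {n k : ℕ} (hk : 2 ≤ k) (hkn : k < n) : 2 * (fnk n k : ℝ) ≤ n + 1 := by
  have h1 := ((second slot).1 n k hk hkn).2.2
  obtain ⟨l, rfl⟩ : ∃ l, k = l + 1 := ⟨k - 1, by omega⟩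
  rw [Nat.add_sub_cancel] at h1
  have h2 : (l + 1) * n = l * n + n := by ring
  have h3 : 2 * fnk n (l + 1) ≤ n + 1 := by
    rw [h2] at h1
    omega
  exact_mod_cast h3

/-- odd `k` -/
theorem odd_case {n s : ℕ} (hs : 2 ≤ s) (hn : 2 * s + 1 < n) :
    (fnk n (2 * s + 1) : ℝ) ≤ n / 2 - (2 * s - 3) * n / (2 * (4 * s ^ 2 + 2 * s + 1)) +
      (2 * s + 1) ^ 2 := by
  have hsR : (2 : ℝ) ≤ s := by exact_mod_cast hs
  have hD : (0 : ℝ) < 4 * s ^ 2 + 2 * s + 1 := by positivity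
  by_cases hbig : (2 * s + 1) * (4 * s ^ 2 + 2 * s + 1) < n
  · obtain ⟨r, hr⟩ : ∃ r, r = (n - 1) / (4 * s ^ 2 + 2 * s + 1) := ⟨_, rfl⟩
    obtain ⟨ρ, hρ⟩ : ∃ ρ, ρ = (n - 1) % (4 * s ^ 2 + 2 * s + 1) := ⟨_, rfl⟩
    have hDn : 0 < 4 * s ^ 2 + 2 * s + 1 := by positivity
    have h1 : n = r * (4 * s ^ 2 + 2 * s + 1) + 1 + ρ := by
      have := Nat.div_add_mod (n - 1) (4 * s ^ 2 + 2 * s + 1)
      rw [← hr, ← hρ] at this
      rw [mul_comm r]
      omega
    have h2 : ρ < 4 * s ^ 2 + 2 * s + 1 := by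
      rw [hρ]
      exact Nat.mod_lt _ hDn
    have h3 : 2 * s + 1 ≤ r := by
      rw [hr, Nat.le_div_iff_mul_le hDn]
      omega
    have h4 := fnk_odd s r ρ (by omega) h3
    rw [← h1] at h4
    have h5 : (fnk n (2 * s + 1) : ℝ) ≤ r * (2 * s ^ 2 + 2) + 2 * s ^ 2 + ρ := by exact_mod_cast h4
    refine h5.trans ?_
    have h6 : (n : ℝ) = r * (4 * s ^ 2 + 2 * s + 1) + 1 + ρ := by exact_mod_cast h1
    have h7 : (ρ : ℝ) ≤ 4 * s ^ 2 + 2 * s := by
      have : ρ ≤ 4 * s ^ 2 + 2 * s := by omega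
      exact_mod_cast this
    have h8 : (0 : ℝ) ≤ ρ := Nat.cast_nonneg _
    have h9 : (n : ℝ) / 2 - (2 * s - 3) * n / (2 * (4 * s ^ 2 + 2 * s + 1)) =
        n * (4 * s ^ 2 + 4) / (2 * (4 * s ^ 2 + 2 * s + 1)) := by
      field_simp
      ring
    rw [h9]
    have h10 : (r * (2 * s ^ 2 + 2) + 2 * s ^ 2 + ρ - (2 * s + 1) ^ 2 : ℝ) ≤
        n * (4 * s ^ 2 + 4) / (2 * (4 * s ^ 2 + 2 * s + 1)) := by
      rw [le_div_iff₀ (by positivity), h6]
      have h11 : (0 : ℝ) ≤ 4 * s ^ 2 + 4 * s - 2 := by nlinarith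
      have h12 : (ρ : ℝ) * (4 * s ^ 2 + 4 * s - 2) ≤ (4 * s ^ 2 + 2 * s) * (4 * s ^ 2 + 4 * s - 2) :=
        mul_le_mul_of_nonneg_right h7 h11
      have h13 : (0 : ℝ) ≤ (s : ℝ) ^ 3 := by positivity
      have h14 : (0 : ℝ) ≤ (s : ℝ) ^ 2 := by positivity
      nlinarith
    linarith
  · push Not at hbig
    have h1 := fnk_half (n := n) (k := 2 * s + 1) (by omega) hn
    have h2 : (n : ℝ) ≤ (2 * s + 1) * (4 * s ^ 2 + 2 * s + 1) := by exact_mod_cast hbig
    have h3 : (2 * (s : ℝ) - 3) * n / (2 * (4 * s ^ 2 + 2 * s + 1)) ≤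
        (2 * s - 3) * (2 * s + 1) / 2 := by
      rw [div_le_div_iff₀ (by positivity) (by norm_num)]
      have h4 : (0 : ℝ) ≤ 2 * s - 3 := by linarith
      have h5 := mul_le_mul_of_nonneg_left h2 h4
      nlinarith
    nlinarith

/-- even `k` -/
theorem even_case {n m : ℕ} (hm : 1 ≤ m) (hn : 2 * m < n) :
    (fnk n (2 * m) : ℝ) ≤ n / 2 - n / (2 * (2 * m + 1)) + m + 1 := by
  have hmR : (1 : ℝ) ≤ m := by exact_mod_cast hm
  by_cases hbig : (2 * m) ^ 2 ≤ n
  · obtain ⟨t, ht⟩ : ∃ t, t = (n + 2 * m) / (2 * m + 1) := ⟨_, rfl⟩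
    have h0 := Nat.div_add_mod (n + 2 * m) (2 * m + 1)
    have h0' := Nat.mod_lt (n + 2 * m) (show 2 * m + 1 > 0 by omega)
    rw [← ht] at h0
    have h1 : n ≤ (2 * m + 1) * t := by omega
    have h2 : (2 * m + 1) * t ≤ n + 2 * m := by omega
    have h3 : 2 * m * t ≤ n := by
      by_contra hcon
      push Not at hcon
      have h4 : (2 * m + 1) * (2 * m * t) ≤ 2 * m * (n + 2 * m) := by
        calc (2 * m + 1) * (2 * m * t) = 2 * m * ((2 * m + 1) * t) := by ring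
          _ ≤ _ := Nat.mul_le_mul_left _ h2
      have h5 : (2 * m + 1) * (n + 1) ≤ (2 * m + 1) * (2 * m * t) := Nat.mul_le_mul_left _ hcon
      nlinarith
    have h4 : 2 ≤ t := by
      have h5 : 2 * m + 2 ≤ n := by
        rcases Nat.lt_or_ge 1 m with h | h
        · nlinarith
        · have : m = 1 := by omega
          subst this
          norm_num at hbig ⊢
          omega
      by_contra hcon
      have h6 : t ≤ 1 := by omega
      have h7 : (2 * m + 1) * t ≤ (2 * m + 1) * 1 := Nat.mul_le_mul_left _ h6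
      omega
    obtain ⟨b, hb⟩ := Nat.exists_eq_add_of_le h3
    have h5 : b ≤ t := by
      have h6 : (2 * m + 1) * t = 2 * m * t + t := by ring
      omega
    have h6 := fnk_le m t b hm h4 h5
    rw [← hb] at h6
    have h7 : (fnk n (2 * m) : ℝ) ≤ m * t + 1 := by exact_mod_cast h6
    have h8 : (2 * (m : ℝ) + 1) * t ≤ n + 2 * m := by exact_mod_cast h2
    have h9 : (t : ℝ) ≤ (n + 2 * m) / (2 * m + 1) := by
      rw [le_div_iff₀ (by positivity)]
      linarith
    have h10 : (m : ℝ) * t ≤ m * ((n + 2 * m) / (2 * m + 1)) :=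
      mul_le_mul_of_nonneg_left h9 (by linarith)
    have h11 : (m : ℝ) * ((n + 2 * m) / (2 * m + 1)) =
        n / 2 - n / (2 * (2 * m + 1)) + 2 * m ^ 2 / (2 * m + 1) := by
      field_simp
      ring
    have h12 : 2 * (m : ℝ) ^ 2 / (2 * m + 1) ≤ m := by
      rw [div_le_iff₀ (by positivity)]
      nlinarith
    linarith
  · push Not at hbig
    have h1 := fnk_half (n := n) (k := 2 * m) (by omega) hn
    have h2 : (n : ℝ) ≤ (2 * m) ^ 2 := by exact_mod_cast hbig.le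
    have h3 : (n : ℝ) / (2 * (2 * m + 1)) ≤ m := by
      rw [div_le_iff₀ (by positivity)]
      nlinarith
    linarith

/-- all `k` -/
theorem deficit {n k : ℕ} (hk : 2 ≤ k) (hkn : k < n) :
    ((k : ℝ) - 4) * n / (2 * (k ^ 2 - k + 1)) - k ^ 2 ≤ n / 2 - fnk n k := by
  have hn0 : (0 : ℝ) ≤ n := Nat.cast_nonneg _
  have hkR : (2 : ℝ) ≤ k := by exact_mod_cast hk
  have hD : (0 : ℝ) < (k : ℝ) ^ 2 - k + 1 := by nlinarith
  by_cases h4 : k < 4
  · have h1 := fnk_half hk hkn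
    have h2 : ((k : ℝ) - 4) * n / (2 * (k ^ 2 - k + 1)) ≤ 0 := by
      apply div_nonpos_of_nonpos_of_nonneg
      · have h3 : (k : ℝ) ≤ 4 := by exact_mod_cast h4.le
        exact mul_nonpos_of_nonpos_of_nonneg (by linarith) hn0
      · positivity
    nlinarith
  push Not at h4
  rcases Nat.even_or_odd' k with ⟨m, rfl | rfl⟩
  · have h1 := even_case (n := n) (m := m) (by omega) hkn
    have hmR : (2 : ℝ) ≤ m := by
      have : 2 ≤ m := by omega
      exact_mod_cast this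
    have h2 : (((2 * m : ℕ) : ℝ) - 4) * n / (2 * (((2 * m : ℕ) : ℝ) ^ 2 - ((2 * m : ℕ) : ℝ) + 1)) ≤
        n / (2 * (2 * m + 1)) := by
      push_cast
      push_cast at hD
      rw [div_le_div_iff₀ (by positivity) (by positivity)]
      have h3 : ((2 * (m : ℝ) - 4) * (2 * (2 * m + 1))) ≤ 2 * ((2 * m) ^ 2 - 2 * m + 1) := by
        nlinarith
      have h5 := mul_le_mul_of_nonneg_left h3 hn0
      nlinarith
    have h3 : (m : ℝ) + 1 ≤ ((2 * m : ℕ) : ℝ) ^ 2 := by
      push_cast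
      nlinarith
    linarith
  · have h1 := odd_case (n := n) (s := m) (by omega) hkn
    have h2 : (((2 * m + 1 : ℕ) : ℝ) - 4) * n /
        (2 * (((2 * m + 1 : ℕ) : ℝ) ^ 2 - ((2 * m + 1 : ℕ) : ℝ) + 1)) =
        (2 * m - 3) * n / (2 * (4 * m ^ 2 + 2 * m + 1)) := by
      push_cast
      congr 1
      · ring
      · ring
    rw [h2]
    push_cast
    linarith

/-- the order of the deficit for all `k ≥ 4` -/
theorem order {n k : ℕ} (hk : 4 ≤ k) (hn : 20 * k ^ 3 ≤ n) :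
    (n : ℝ) / (20 * k) ≤ n / 2 - fnk n k ∧
      (n : ℝ) / 2 - fnk n k ≤ 342 * n * (Real.log k + 1) ^ 2 / k := by
  have hkR : (4 : ℝ) ≤ k := by exact_mod_cast hk
  have hn0 : (0 : ℝ) ≤ n := Nat.cast_nonneg _
  have hkn : k < n := by
    have h1 : k ≤ k ^ 3 := Nat.le_self_pow (by norm_num) k
    omega
  have hnR : 20 * (k : ℝ) ^ 3 ≤ n := by exact_mod_cast hn
  constructor
  · rcases Nat.lt_or_ge k 5 with h5 | h5
    · have h6 : k = 4 := by omega
      subst h6
      have h1 := even_case (n := n) (m := 2) (by norm_num) (by omega)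
      have hn' : (1280 : ℝ) ≤ n := by
        have h2 : 1280 ≤ n := by omega
        exact_mod_cast h2
      norm_num at h1 ⊢
      linarith
    · have h1 := deficit (n := n) (k := k) (by omega) hkn
      have hkR5 : (5 : ℝ) ≤ k := by exact_mod_cast h5
      have h2 : (n : ℝ) / (10 * k) ≤ ((k : ℝ) - 4) * n / (2 * (k ^ 2 - k + 1)) := by
        have hD : (0 : ℝ) < (k : ℝ) ^ 2 - k + 1 := by nlinarith
        rw [div_le_div_iff₀ (by positivity) (by positivity)]
        have h3 : 2 * ((k : ℝ) ^ 2 - k + 1) ≤ ((k : ℝ) - 4) * (10 * k) := by nlinarith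
        have h4 := mul_le_mul_of_nonneg_left h3 hn0
        nlinarith
      have h3 : (k : ℝ) ^ 2 ≤ n / (20 * k) := by
        rw [le_div_iff₀ (by positivity)]
        nlinarith
      have h4 : (n : ℝ) / (10 * k) = n / (20 * k) + n / (20 * k) := by
        field_simp
        ring
      linarith
  · have h1 := ((second slot).1 n k (by omega) hkn).1
    have h2 : (n : ℝ) / 2 * (1 - 684 * (Real.log k + 1) ^ 2 / k) =
        n / 2 - 342 * n * (Real.log k + 1) ^ 2 / k := by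
      field_simp
      ring
    linarith

end Pool.Agent.OddRing
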