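import Pool.Agent.Lib_helper26.RE.Ring
import Pool.Agent.Lib_helper26.RE.Conn

/-!
# MP_df1a54_co: two general lemmas on deletable sets of edges
-/

open Finset

set_option autoImplicit false

namespace Pool.Agent.OddRing

open Pool.Agent.RE26

/-- If `G - F` is `k`-connected then `F` contains at most one of the at most `k + 1` edges at `v`. -/
theorem deg_one {V : Type} [Fintype V] [DecidableEq V] (G : SimpleGraph V) (F : Finset (Sym2 V))
    (k : ℕ) (hF : (F : Set (Sym2 V)) ⊆ G.edgeSet)
    (hK : KConn (G.deleteEdges (F : Set (Sym2 V))) k) (v : V) (N : Finset V)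
    (hN : ∀ w, G.Adj v w → w ∈ N) (hc : N.card ≤ k + 1) {w w' : V} (h1 : s(v, w) ∈ F)
    (h2 : s(v, w') ∈ F) : w = w' := by
  by_contra hne
  have hw : w ∈ N := hN w (hF (Finset.mem_coe.2 h1))
  have hw' : w' ∈ N := hN w' (hF (Finset.mem_coe.2 h2))
  set N' : Finset V := N \ {w, w'} with hN'
  have hN'c : N'.card + 2 ≤ k + 1 := by
    have h3 : ({w, w'} : Finset V) ⊆ N := by
      intro z hz
      rcases Finset.mem_insert.1 hz with rfl | hz
      · exact hw
      · rw [Finset.mem_singleton.1 hz]
        exact hw'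
    have h4 := Finset.card_sdiff_add_card_eq_card h3
    rw [Finset.card_pair hne, ← hN'] at h4
    omega
  have hcard := hK.1
  have h6 := sep_of_kconn _ _ hK {v} (insert v N')ᶜ (Finset.singleton_nonempty v) (by
    rw [← Finset.card_pos, Finset.card_compl]
    have := Finset.card_insert_le v N'
    omega) (by
    rw [Finset.disjoint_left]
    intro a ha hb
    rw [Finset.mem_singleton] at ha
    subst ha
    exact (Finset.mem_compl.1 hb) (Finset.mem_insert_self _ _)) (by
    intro x hx y hy hxy
    rw [Finset.mem_singleton] at hx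
    subst hx
    rw [SimpleGraph.deleteEdges_adj] at hxy
    rw [Finset.mem_compl, Finset.mem_insert, not_or] at hy
    apply hy.2
    rw [hN', Finset.mem_sdiff]
    refine ⟨hN y hxy.1, ?_⟩
    rw [Finset.mem_insert, Finset.mem_singleton]
    rintro (rfl | rfl)
    · exact hxy.2 (Finset.mem_coe.2 h1)
    · exact hxy.2 (Finset.mem_coe.2 h2))
  have h7 : ({v} ∪ (insert v N')ᶜ)ᶜ ⊆ N' := by
    intro z hz
    rw [Finset.mem_compl, Finset.mem_union, not_or, Finset.mem_singleton, Finset.mem_compl,
      not_not, Finset.mem_insert] at hz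
    exact hz.2.resolve_left hz.1
  have h8 := Finset.card_le_card h7
  omega

/-- an upper bound for `f(n, k)` from one graph -/
theorem fnk_le_of_graph {V : Type} [Fintype V] [DecidableEq V] (G : SimpleGraph V) (n k B : ℕ)
    (hn : Fintype.card V = n) (hG : KConn G k)
    (hB : ∀ F : Finset (Sym2 V), (F : Set (Sym2 V)) ⊆ G.edgeSet →
      KConn (G.deleteEdges (F : Set (Sym2 V))) (k - 1) → F.card ≤ B) : fnk n k ≤ B := by
  classical
  obtain ⟨e⟩ : Nonempty (V ≃ Fin n) := ⟨Fintype.equivFinOfCardEq hn⟩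
  set G' : SimpleGraph (Fin n) := G.comap e.symm with hG'
  have hGadj : ∀ a c, G.Adj a c ↔ G'.Adj (e a) (e c) := by
    intro a c
    rw [hG', SimpleGraph.comap_adj, Equiv.symm_apply_apply, Equiv.symm_apply_apply]
  have hGK : KConn G' k := kconn_equiv e _ _ hGadj _ hG
  have hrem : rem G' k ≤ B := by
    refine csSup_le' ?_
    rintro r ⟨F, hF, rfl, hconn⟩
    set F₂ : Finset (Sym2 V) := F.map e.symm.toEmbedding.sym2Map with hF₂
    have hmem : ∀ a c, s(a, c) ∈ F₂ ↔ s(e a, e c) ∈ F := by
      intro a c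
      have h1 : s(a, c) = e.symm.toEmbedding.sym2Map s(e a, e c) := by
        rw [Function.Embedding.sym2Map_apply, Sym2.map_mk]
        simp
      rw [hF₂, h1, Finset.mem_map']
    rw [← Finset.card_map e.symm.toEmbedding.sym2Map, ← hF₂]
    refine hB F₂ ?_ ?_
    · intro x hx
      induction x using Sym2.ind with
      | _ a c =>
        rw [Finset.mem_coe, hmem] at hx
        have h1 := hF (Finset.mem_coe.2 hx)
        rw [SimpleGraph.mem_edgeSet] at h1 ⊢
        rwa [hGadj]
    · refine kconn_equiv e.symm _ _ ?_ _ hconn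
      intro a c
      rw [SimpleGraph.deleteEdges_adj, SimpleGraph.deleteEdges_adj, hGadj, Finset.mem_coe,
        Finset.mem_coe, hmem, Equiv.apply_symm_apply, Equiv.apply_symm_apply]
  have hmem : rem G' k ∈ {r | ∃ G : SimpleGraph (Fin n), KConn G k ∧ rem G k = r} :=
    ⟨G', hGK, rfl⟩
  exact (Nat.sInf_le hmem).trans hrem

end Pool.Agent.OddRing
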