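import Pool.Agent.Lib_helper32.OR.Gen

/-!
# MP_df1a54_co: a ring of odd cliques with collecting vertices and a hub

The ring has `T + 2` blobs; blob `i` is a clique on the ports `(j, false)` (left), `(j, true)`
(right), `j : Fin s`, and one special vertex `none`.  The port `(j, true)` of blob `i` is joined to the
port `(j, false)` of blob `i + 1`.  The blobs come in groups of `2 s` consecutive ones; the special
vertices of the group `a` are joined to a vertex `z a`, and all `z a` are joined to one hub.  There are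
`ρ` more vertices, each joined to all vertices of blob `0`.
-/

open Finset

set_option autoImplicit false
set_option linter.unusedSectionVars false
set_option linter.unusedVariables false

namespace Pool.Agent.OddRing

open Pool.Agent.RE26

/-- the vertices -/
abbrev OV (s T r ρ : ℕ) : Type :=
  (Fin (T + 2) × Option (Fin s × Bool)) ⊕ (Option (Fin r) ⊕ Fin ρ)

variable {s T r ρ : ℕ}

/-- the vertex `p` of blob `i` -/
abbrev bv (i : Fin (T + 2)) (p : Option (Fin s × Bool)) : OV s T r ρ := Sum.inl (i, p)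

/-- the collecting vertex of the group `a` -/
abbrev zv (a : Fin r) : OV s T r ρ := Sum.inr (Sum.inl (some a))

/-- the hub -/
abbrev hv : OV s T r ρ := Sum.inr (Sum.inl none)

/-- an additional vertex -/
abbrev ev (x : Fin ρ) : OV s T r ρ := Sum.inr (Sum.inr x)

/-- the edges, in one direction -/
inductive Half : OV s T r ρ → OV s T r ρ → Prop
  | inner (i : Fin (T + 2)) (p p' : Option (Fin s × Bool)) (h : p ≠ p') : Half (bv i p) (bv i p')
  | link (i i' : Fin (T + 2)) (j : Fin s) (h : i' = i + 1) :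
      Half (bv i (some (j, true))) (bv i' (some (j, false)))
  | leaf (i : Fin (T + 2)) (a : Fin r) (h : (a : ℕ) = (i : ℕ) / (2 * s)) : Half (bv i none) (zv a)
  | spoke (a : Fin r) : Half (zv a) hv
  | ext (i : Fin (T + 2)) (p : Option (Fin s × Bool)) (x : Fin ρ) (h : i = 0) : Half (bv i p) (ev x)

/-- the graph -/
def oddG (s T r ρ : ℕ) : SimpleGraph (OV s T r ρ) where
  Adj u v := Half u v ∨ Half v u
  symm := ⟨fun _ _ h => h.symm⟩
  loopless := ⟨fun u h => by
    have key : ∀ u v : OV s T r ρ, Half u v → u ≠ v := by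
      intro u v h
      cases h with
      | inner i p p' h => intro he; simp at he; exact h he
      | link i i' j h => intro he; simp at he
      | leaf i a h => intro he; simp at he
      | spoke a => intro he; simp at he
      | ext i p x h => intro he; simp at he
    rcases h with h | h
    · exact key u u h rfl
    · exact key u u h rfl⟩

theorem card_OV : Fintype.card (OV s T r ρ) = (T + 2) * (2 * s + 1) + (r + 1 + ρ) := by
  simp [Fintype.card_sum, Fintype.card_prod, Fintype.card_option]
  ring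

/-- the blobs of a group -/
def grp (s T : ℕ) (a : ℕ) : Finset (Fin (T + 2)) := univ.filter fun i => (i : ℕ) / (2 * s) = a

theorem card_grp_le (hs : 1 ≤ s) (a : ℕ) : (grp s T a).card ≤ 2 * s := by
  have h1 : (grp s T a).card ≤ (range (2 * s)).card := by
    refine card_le_card_of_injOn (fun i => (i : ℕ) % (2 * s)) ?_ ?_
    · intro i _
      rw [mem_coe, mem_range]
      exact Nat.mod_lt _ (by omega)
    · intro i hi i' hi' h
      rw [mem_coe, grp, mem_filter] at hi hi'
      have h2 : (i : ℕ) % (2 * s) = (i' : ℕ) % (2 * s) := h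
      apply Fin.ext
      rw [← Nat.div_add_mod (i : ℕ) (2 * s), ← Nat.div_add_mod (i' : ℕ) (2 * s), hi.2, hi'.2, h2]
  rwa [card_range] at h1

theorem blob_lt (hT : T + 2 = r * (2 * s)) (a : Fin r) (t : ℕ) (ht : t < 2 * s) :
    (a : ℕ) * (2 * s) + t < T + 2 := by
  have h1 : ((a : ℕ) + 1) * (2 * s) ≤ r * (2 * s) := Nat.mul_le_mul_right _ a.2
  rw [hT]
  have h2 : ((a : ℕ) + 1) * (2 * s) = (a : ℕ) * (2 * s) + 2 * s := by ring
  omega

/-- the `t`-th blob of the group `a` -/
def gb (hT : T + 2 = r * (2 * s)) (a : Fin r) (t : Fin (2 * s)) : Fin (T + 2) :=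
  ⟨(a : ℕ) * (2 * s) + t, blob_lt hT a t t.2⟩

theorem gb_div (hT : T + 2 = r * (2 * s)) (a : Fin r) (t : Fin (2 * s)) :
    (a : ℕ) = ((gb hT a t : Fin (T + 2)) : ℕ) / (2 * s) := by
  have hs : 0 < 2 * s := lt_of_le_of_lt (Nat.zero_le _) t.2
  have h1 : ((gb hT a t : Fin (T + 2)) : ℕ) = (a : ℕ) * (2 * s) + t := rfl
  rw [h1, mul_comm, Nat.mul_add_div hs, Nat.div_eq_of_lt t.2, add_zero]

theorem gb_inj (hT : T + 2 = r * (2 * s)) {a a' : Fin r} {t t' : Fin (2 * s)}
    (h : gb hT a t = gb hT a' t') : a = a' ∧ t = t' := by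
  have h1 : a = a' := by
    apply Fin.ext
    rw [gb_div hT a t, gb_div hT a' t', h]
  subst h1
  refine ⟨rfl, ?_⟩
  have h2 := congrArg Fin.val h
  have h3 : (a : ℕ) * (2 * s) + t = (a : ℕ) * (2 * s) + t' := h2
  apply Fin.ext
  omega

theorem group_lt (hT : T + 2 = r * (2 * s)) (i : Fin (T + 2)) : (i : ℕ) / (2 * s) < r := by
  have h1 : (i : ℕ) < 2 * s * r := lt_of_lt_of_eq i.2 (by rw [hT, mul_comm])
  exact Nat.div_lt_of_lt_mul h1

section Conn

variable {X Y : Finset (OV s T r ρ)}

theorem same (hXY : Disjoint X Y) (hn : ∀ x ∈ X, ∀ y ∈ Y, ¬ (oddG s T r ρ).Adj x y)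
    {i : Fin (T + 2)} {p p' : Option (Fin s × Bool)} (hx : bv i p ∈ X) (hy : bv i p' ∈ Y) : False := by
  by_cases h : p = p'
  · subst h
    exact Finset.disjoint_left.1 hXY hx hy
  · exact hn _ hx _ hy (Or.inl (Half.inner i p p' h))

theorem meet (hS : (X ∪ Y)ᶜ.card ≤ 2 * s) (i : Fin (T + 2)) :
    ∃ p : Option (Fin s × Bool), bv i p ∈ X ∨ bv i p ∈ Y := by
  classical
  by_contra hcon
  push Not at hcon
  have h1 : (univ : Finset (Option (Fin s × Bool))).card ≤ (X ∪ Y)ᶜ.card := by
    refine card_le_card_of_injOn (fun p => (bv i p : OV s T r ρ)) ?_ ?_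
    · intro p _
      rw [mem_coe, mem_compl, mem_union]
      exact fun h => h.elim (hcon p).1 (hcon p).2
    · intro p _ p' _ h
      simpa using h
  rw [card_univ, Fintype.card_option, Fintype.card_prod, Fintype.card_fin, Fintype.card_bool] at h1
  omega

theorem no_outer (hs : 1 ≤ s) (hr : 2 * s + 1 ≤ r) (hT : T + 2 = r * (2 * s)) (hXY : Disjoint X Y)
    (hn : ∀ x ∈ X, ∀ y ∈ Y, ¬ (oddG s T r ρ).Adj x y) (hS : (X ∪ Y)ᶜ.card ≤ 2 * s)
    (hall : ∀ i : Fin (T + 2), ∃ p : Option (Fin s × Bool), bv i p ∈ X) (hY : Y.Nonempty) :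
    False := by
  classical
  have hbY : ∀ (i : Fin (T + 2)) (p : Option (Fin s × Bool)), bv i p ∉ Y := by
    intro i p hp
    obtain ⟨p', hp'⟩ := hall i
    exact same hXY hn hp' hp
  have hleaf : ∀ (a : Fin r) (t : Fin (2 * s)), zv a ∈ Y →
      (bv (gb hT a t) none : OV s T r ρ) ∈ (X ∪ Y)ᶜ := by
    intro a t ha
    rw [mem_compl, mem_union]
    rintro (h | h)
    · exact hn _ h _ ha (Or.inl (Half.leaf _ a (gb_div hT a t)))
    · exact hbY _ _ h
  have hub : hv ∉ Y := by
    intro hh
    have hzX : ∀ a : Fin r, zv a ∉ X := fun a ha => hn _ ha _ hh (Or.inl (Half.spoke a))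
    have h1 : (univ : Finset (Fin r)).card ≤ (X ∪ Y)ᶜ.card := by
      refine card_le_card_of_injOn (fun a => if (zv a : OV s T r ρ) ∈ (X ∪ Y)ᶜ then zv a else
        bv (gb hT a ⟨0, by omega⟩) none) ?_ ?_
      · intro a _
        rw [mem_coe]
        dsimp only
        split_ifs with h
        · exact h
        · apply hleaf
          rw [mem_compl, mem_union, not_not] at h
          exact h.resolve_left (hzX a)
      · intro a _ a' _ h
        dsimp only at h
        by_cases h1 : (zv a : OV s T r ρ) ∈ (X ∪ Y)ᶜ <;>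
          by_cases h2 : (zv a' : OV s T r ρ) ∈ (X ∪ Y)ᶜ
        · rw [if_pos h1, if_pos h2] at h
          simpa using h
        · rw [if_pos h1, if_neg h2] at h
          simp at h
        · rw [if_neg h1, if_pos h2] at h
          simp at h
        · rw [if_neg h1, if_neg h2] at h
          have h3 : gb hT a ⟨0, by omega⟩ = gb hT a' ⟨0, by omega⟩ := by simpa using h
          exact (gb_inj hT h3).1
    rw [card_univ, Fintype.card_fin] at h1
    omega
  obtain ⟨y, hy⟩ := hY
  rcases y with ⟨i, p⟩ | (_ | a) | x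
  · exact hbY i p hy
  · exact hub hy
  · -- a collecting vertex
    by_cases hh : (hv : OV s T r ρ) ∈ X ∪ Y
    · rcases mem_union.1 hh with h | h
      · exact hn _ h _ hy (Or.inr (Half.spoke a))
      · exact hub h
    · have h1 : (univ : Finset (Option (Fin (2 * s)))).card ≤ (X ∪ Y)ᶜ.card := by
        refine card_le_card_of_injOn (fun o => match o with
          | none => hv
          | some t => bv (gb hT a t) none) ?_ ?_
        · intro o _
          rw [mem_coe]
          rcases o with _ | t
          · exact mem_compl.2 hh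
          · exact hleaf a t hy
        · intro o _ o' _ h
          rcases o with _ | t <;> rcases o' with _ | t'
          · rfl
          · simp at h
          · simp at h
          · have h3 : gb hT a t = gb hT a t' := by simpa using h
            rw [(gb_inj hT h3).2]
      rw [card_univ, Fintype.card_option, Fintype.card_fin] at h1
      omega
  · obtain ⟨p, hp⟩ := hall 0
    exact hn _ hp _ hy (Or.inl (Half.ext 0 p x rfl))

/-- the position of a port -/
def posn (v : OV s T r ρ) : Option (Fin (T + 2) × Fin s) :=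
  match v with
  | Sum.inl (i, some (j, true)) => some (i, j)
  | Sum.inl (i, some (j, false)) => some (i - 1, j)
  | _ => none

/-- an endpoint of the link `(p, j)` which is in `S`, if there is one -/
def pick (S : Finset (OV s T r ρ)) (p : Fin (T + 2)) (j : Fin s) : OV s T r ρ :=
  if bv p (some (j, true)) ∈ S then bv p (some (j, true)) else bv (p + 1) (some (j, false))

theorem posn_pick (S : Finset (OV s T r ρ)) (p : Fin (T + 2)) (j : Fin s) :
    posn (pick S p j) = some (p, j) := by
  unfold pick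
  split_ifs
  · rfl
  · show some (p + 1 - 1, j) = some (p, j)
    rw [add_sub_cancel_right]

theorem odd_conn (hs : 1 ≤ s) (hr : 2 * s + 1 ≤ r) (hT : T + 2 = r * (2 * s)) :
    KConn (oddG s T r ρ) (2 * s + 1) := by
  classical
  refine kconn_of_sep _ _ ?_ ?_
  · rw [card_OV]
    have h1 : (T + 2) * (2 * s + 1) = (T + 1) * (2 * s + 1) + (2 * s + 1) := by ring
    omega
  intro X Y hX hY hXY hn
  by_contra hlt
  push Not at hlt
  have hS : (X ∪ Y)ᶜ.card ≤ 2 * s := by omega
  set P : Fin (T + 2) → Prop := fun i => ∃ p : Option (Fin s × Bool), (bv i p : OV s T r ρ) ∈ X with hP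
  by_cases hall : ∀ i, P i
  · exact no_outer hs hr hT hXY hn hS hall hY
  by_cases hnone : ∀ i, ¬ P i
  · refine no_outer hs hr hT hXY.symm (fun y hy x hx h => hn x hx y hy h.symm) ?_ ?_ hX
    · rwa [union_comm]
    · intro i
      obtain ⟨p, hp⟩ := meet hS i
      rcases hp with hp | hp
      · exact absurd ⟨p, hp⟩ (hnone i)
      · exact ⟨p, hp⟩
  push Not at hall hnone
  obtain ⟨i1, hi1⟩ := hall
  obtain ⟨i0, hi0⟩ := hnone
  obtain ⟨p, hp1, hp2⟩ := cyc_change P _ _ hi0 hi1
  obtain ⟨q, hq1, hq2⟩ := cyc_change (fun p => ¬ P p) _ _ hi1 (by simpa using hi0)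
  have hq2' : P (q + 1) := by
    by_contra hcon
    exact hq2 hcon
  have hpq : p ≠ q := by
    rintro rfl
    exact hq1 hp1
  have hPX : ∀ i, P i → ∀ c : Option (Fin s × Bool), (bv i c : OV s T r ρ) ∉ Y := by
    rintro i ⟨c', hc'⟩ c hc
    exact same hXY hn hc' hc
  have hPY : ∀ i, ¬ P i → ∀ c : Option (Fin s × Bool), (bv i c : OV s T r ρ) ∉ X := by
    intro i hi c hc
    exact hi ⟨c, hc⟩
  have hadj : ∀ (i : Fin (T + 2)) (j : Fin s),
      (oddG s T r ρ).Adj (bv i (some (j, true))) (bv (i + 1) (some (j, false))) :=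
    fun i j => Or.inl (Half.link i (i + 1) j rfl)
  have hpickp : ∀ j, pick (X ∪ Y)ᶜ p j ∈ (X ∪ Y)ᶜ := by
    intro j
    unfold pick
    split_ifs with h
    · exact h
    · rw [mem_compl, mem_union, not_not] at h
      have h1 : (bv p (some (j, true)) : OV s T r ρ) ∈ X := h.resolve_right (hPX p hp1 _)
      rw [mem_compl, mem_union]
      rintro (h2 | h2)
      · exact hPY _ hp2 _ h2
      · exact hn _ h1 _ h2 (hadj p j)
  have hpickq : ∀ j, pick (X ∪ Y)ᶜ q j ∈ (X ∪ Y)ᶜ := by
    intro j
    unfold pick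
    split_ifs with h
    · exact h
    · rw [mem_compl, mem_union, not_not] at h
      have h1 : (bv q (some (j, true)) : OV s T r ρ) ∈ Y := h.resolve_left (hPY q hq1 _)
      rw [mem_compl, mem_union]
      rintro (h2 | h2)
      · exact hn _ h2 _ h1 (hadj q j).symm
      · exact hPX _ hq2' _ h2
  set φ : Fin s × Bool → OV s T r ρ := fun x => pick (X ∪ Y)ᶜ (if x.2 then q else p) x.1 with hφ
  have hφS : ∀ x, φ x ∈ (X ∪ Y)ᶜ := by
    rintro ⟨j, b⟩
    cases b with
    | true => exact hpickq j
    | false => exact hpickp j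
  have hφi : Function.Injective φ := by
    rintro ⟨j, b⟩ ⟨j', b'⟩ h
    have h2 := congrArg posn h
    simp only [hφ, posn_pick, Option.some.injEq, Prod.mk.injEq] at h2
    obtain ⟨h3, rfl⟩ := h2
    have : b = b' := by
      cases b <;> cases b'
      · rfl
      · exact absurd h3 hpq
      · exact absurd h3.symm hpq
      · rfl
    rw [this]
  have himg : (univ.image φ) = (X ∪ Y)ᶜ := by
    apply Finset.eq_of_subset_of_card_le
    · intro v hv
      obtain ⟨x, -, rfl⟩ := mem_image.1 hv
      exact hφS x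
    · rw [card_image_of_injective _ hφi, card_univ, Fintype.card_prod, Fintype.card_fin,
        Fintype.card_bool]
      omega
  have hin : ∀ v : OV s T r ρ, posn v = none → v ∈ X ∨ v ∈ Y := by
    intro v hv
    by_contra hcon
    have h1 : v ∈ (X ∪ Y)ᶜ := by
      rw [mem_compl, mem_union]
      exact hcon
    rw [← himg] at h1
    obtain ⟨x, -, hx⟩ := mem_image.1 h1
    have h2 := congrArg posn hx
    rw [hφ] at h2
    simp only [posn_pick] at h2
    rw [hv] at h2
    simp at h2
  -- the hub is in `X`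
  have hubX : (hv : OV s T r ρ) ∈ X := by
    have h1 : (bv i0 none : OV s T r ρ) ∈ X := (hin _ rfl).resolve_right (hPX i0 hi0 _)
    set a : Fin r := ⟨(i0 : ℕ) / (2 * s), group_lt hT i0⟩ with ha
    have h2 : (zv a : OV s T r ρ) ∈ X := (hin _ rfl).resolve_right
      (fun h => hn _ h1 _ h (Or.inl (Half.leaf i0 a rfl)))
    exact (hin _ rfl).resolve_right (fun h => hn _ h2 _ h (Or.inl (Half.spoke a)))
  have h1 : (bv i1 none : OV s T r ρ) ∈ Y := (hin _ rfl).resolve_left (hPY i1 hi1 _)
  set a : Fin r := ⟨(i1 : ℕ) / (2 * s), group_lt hT i1⟩ with ha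
  have h2 : (zv a : OV s T r ρ) ∈ Y := (hin _ rfl).resolve_left
    (fun h => hn _ h _ h1 (Or.inr (Half.leaf i1 a rfl)))
  exact hn _ hubX _ h2 (Or.inr (Half.spoke a))

end Conn

end Pool.Agent.OddRing
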